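import Pool.Agent.W209.KT.Stm

set_option autoImplicit false

namespace Pool.Agent.W188.KT

open Pool.Agent.W209.KT

theorem lev_le (k : ℕ) : lev k ≤ k := by
  have : Nat.log 256 (k + 1) < k + 1 :=
    Nat.log_lt_of_lt_pow (by omega) (Nat.lt_pow_self (by norm_num))
  unfold lev
  omega

theorem D_pos (k : ℕ) : 1 ≤ D k := Nat.one_le_two_pow

theorem big (k : ℕ) : (40940 : ℝ) * ((2 : ℝ) ^ lev k) ^ 55 ≤ D k := by
  have h1 : k < 36 ^ k := Nat.lt_pow_self (by norm_num)
  have h2 : 16 + lev k * 55 ≤ 1000 * 36 ^ k := by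
    have := lev_le k
    omega
  have h3 : 2 ^ (16 + lev k * 55) ≤ D k := Nat.pow_le_pow_right (by norm_num) h2
  have h4 : 40940 * (2 ^ lev k) ^ 55 ≤ D k := by
    rw [pow_add, pow_mul] at h3
    exact le_trans (Nat.mul_le_mul_right _ (by norm_num)) h3
  exact_mod_cast h4

theorem E_le (k : ℕ) : E k ≤ D k := Nat.pow_log_le_self 3 (by have := D_pos k; omega)

theorem D_lt (k : ℕ) : D k < 3 * E k := by
  have h := Nat.lt_pow_succ_log_self (b := 3) (by norm_num) (D k)
  rw [pow_succ] at h
  unfold E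
  omega

theorem p_pos (k : ℕ) (j : Fin 2) : 0 < p k j := by
  unfold p
  split_ifs
  · exact D_pos k
  · exact Nat.pow_pos (by norm_num)

theorem D_le_p (k : ℕ) (j : Fin 2) : D k ≤ 3 * p k j := by
  unfold p
  split_ifs
  · omega
  · exact (D_lt k).le

theorem sum_g (a t : ℝ) : ∑ l : Fin 11, g a l * t ^ l.1 = (t - a) ^ 10 := by
  rw [sub_eq_add_neg, add_pow, Finset.sum_range]
  apply Finset.sum_congr rfl
  intro l _
  unfold g
  ring

theorem curve (h1 : S_pig) (_h2 : S_cov) : S_curve := by
  intro A s hG k t ht1 ht2 htu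
  obtain ⟨q, y, hq0, hqQ, hy, hdiv⟩ := h1 (s k) (p k) (p_pos k) (gam t) (D k * 2 ^ (5 * lev k))
    (D k ^ 12 * 2 ^ (50 * lev k)) (Nat.mul_pos (D_pos k) (Nat.pow_pos (by norm_num))) (by
      have h3 : p k 0 * p k 1 ≤ D k * D k := by
        unfold p
        simp only [if_true, one_ne_zero, if_false]
        exact Nat.mul_le_mul_left _ (E_le k)
      calc (D k * 2 ^ (5 * lev k)) ^ 10 * (p k 0 * p k 1)
          ≤ (D k * 2 ^ (5 * lev k)) ^ 10 * (D k * D k) := Nat.mul_le_mul_left _ h3
        _ = D k ^ 12 * 2 ^ (50 * lev k) := by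
            rw [mul_pow, ← pow_mul]
            have : 5 * lev k * 10 = 50 * lev k := by ring
            rw [this]
            ring)
  refine ⟨q, hq0, hqQ, ?_⟩
  obtain ⟨d, hd⟩ : ∃ d : ℝ, d = (D k : ℝ) := ⟨_, rfl⟩
  obtain ⟨w, hw⟩ : ∃ w : ℝ, w = (2 : ℝ) ^ lev k := ⟨_, rfl⟩
  have hd1 : 1 ≤ d := by
    rw [hd]
    exact_mod_cast D_pos k
  have hw1 : 1 ≤ w := by
    rw [hw]
    exact one_le_pow₀ (by norm_num)
  have hd0 : 0 < d := by linarith
  have hw0 : 0 < w := by linarith
  have hbig : 40940 * w ^ 55 ≤ d := by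
    rw [hd, hw]
    exact big k
  obtain ⟨M, hM⟩ : ∃ M : ℝ, M = d * w ^ 5 := ⟨_, rfl⟩
  have hM0 : 0 < M := by rw [hM]; positivity
  have hMe : ((D k : ℝ) * 2 ^ (5 * lev k)) = M := by
    rw [hM, hd, hw, mul_comm 5, pow_mul]
  have hqr : (q : ℝ) ≤ d ^ 12 * w ^ 50 := by
    have h3 : (q : ℝ) ≤ ((D k ^ 12 * 2 ^ (50 * lev k) : ℕ) : ℝ) := by exact_mod_cast hqQ
    push_cast at h3
    rw [mul_comm 50, pow_mul] at h3
    rw [hd, hw]
    exact h3
  have hq0r : (0 : ℝ) ≤ q := Nat.cast_nonneg q
  have hy' : ∀ l, |(q : ℝ) * gam t l - y l| < 1 / M := by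
    intro l
    have h3 := hy l
    push_cast at h3
    rw [hMe] at h3
    exact h3
  rw [hMe]
  intro i
  refine Fin.addCases (m := 10) (n := 2)
    (motive := fun i => nrm (q * pt A (gam t) i) < 50 / M) ?_ ?_ i
  · intro l
    rw [pt, Fin.append_left]
    refine lt_of_le_of_lt (round_le _ (y l)) (lt_of_lt_of_le (hy' l) ?_)
    exact div_le_div_of_nonneg_right (by norm_num) hM0.le
  · intro j
    rw [pt, Fin.append_right]
    obtain ⟨z, hz⟩ := hdiv j
    refine lt_of_le_of_lt (round_le _ z) ?_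
    obtain ⟨P, hP⟩ : ∃ P : ℝ, P = (p k j : ℝ) := ⟨_, rfl⟩
    have hP0 : 0 < P := by
      rw [hP]
      exact_mod_cast p_pos k j
    have hdP : d ≤ 3 * P := by
      rw [hd, hP]
      exact_mod_cast D_le_p k j
    have hzr : (z : ℝ) = ((s k j 0 : ℝ) * q + ∑ l : Fin 10, (s k j l.succ : ℝ) * y l) / P := by
      rw [eq_div_iff hP0.ne', hP]
      have h3 : ((s k j 0 * q + ∑ l : Fin 10, s k j l.succ * y l : ℤ) : ℝ)
          = (((p k j : ℤ) * z : ℤ) : ℝ) := by rw [hz]
      push_cast at h3
      rw [h3]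
      ring
    obtain ⟨r, hr⟩ : ∃ r : Fin 11 → ℝ, r = fun l => A j l - s k j l / P
      - v j / (F k * P) * g (u k) l := ⟨_, rfl⟩
    have hrb : ∀ l, |r l| ≤ 20 / d ^ 36 := by
      intro l
      rw [hr, hd, hP]
      exact hG.close k j l
    have hexp : (q : ℝ) * aff A j (gam t) - z = q * (∑ l : Fin 11, r l * t ^ l.1)
        + q * (v j / (F k * P) * (t - u k) ^ 10)
        + ∑ l : Fin 10, (s k j l.succ / P) * ((q : ℝ) * gam t l - y l) := by
      have e1 : ∑ l : Fin 11, r l * t ^ l.1 = (∑ l : Fin 11, (A j l - s k j l / P) * t ^ l.1)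
          - v j / (F k * P) * (t - u k) ^ 10 := by
        rw [← sum_g, Finset.mul_sum, ← Finset.sum_sub_distrib]
        apply Finset.sum_congr rfl
        intro l _
        rw [hr]
        ring
      have e2 : ∑ l : Fin 11, (A j l - s k j l / P) * t ^ l.1 = (A j 0 - s k j 0 / P)
          + ((∑ l : Fin 10, A j l.succ * gam t l)
            - (∑ l : Fin 10, (s k j l.succ : ℝ) * gam t l) / P) := by
        rw [Fin.sum_univ_succ, Finset.sum_div, ← Finset.sum_sub_distrib]
        congr 1
        · simp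
        · apply Finset.sum_congr rfl
          intro l _
          rw [gam, Fin.val_succ]
          ring
      have e3 : ∑ l : Fin 10, (s k j l.succ / P) * ((q : ℝ) * gam t l - y l)
          = (q * (∑ l : Fin 10, (s k j l.succ : ℝ) * gam t l)
            - ∑ l : Fin 10, (s k j l.succ : ℝ) * y l) / P := by
        rw [Finset.mul_sum, ← Finset.sum_sub_distrib, Finset.sum_div]
        apply Finset.sum_congr rfl
        intro l _
        ring
      rw [e1, e2, e3, hzr, aff]
      ring
    rw [hexp]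
    -- first term
    have b1 : |(q : ℝ) * (∑ l : Fin 11, r l * t ^ l.1)| ≤ 1 / M := by
      have c1 : |∑ l : Fin 11, r l * t ^ l.1| ≤ 20 / d ^ 36 * 2047 := by
        calc |∑ l : Fin 11, r l * t ^ l.1| ≤ ∑ l : Fin 11, |r l * t ^ l.1| :=
              Finset.abs_sum_le_sum_abs _ _
          _ ≤ ∑ l : Fin 11, 20 / d ^ 36 * 2 ^ l.1 := by
              apply Finset.sum_le_sum
              intro l _
              rw [abs_mul, abs_of_nonneg (by positivity : (0 : ℝ) ≤ t ^ l.1)]
              exact mul_le_mul (hrb l) (pow_le_pow_left₀ (by linarith) ht2 _) (by positivity)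
                (by positivity)
          _ = 20 / d ^ 36 * 2047 := by
              rw [← Finset.mul_sum]
              congr 1
              simp [Fin.sum_univ_succ]
              norm_num
      rw [abs_mul, abs_of_nonneg hq0r]
      calc (q : ℝ) * |∑ l : Fin 11, r l * t ^ l.1| ≤ (d ^ 12 * w ^ 50) * (20 / d ^ 36 * 2047) :=
            mul_le_mul hqr c1 (abs_nonneg _) (by positivity)
        _ ≤ 1 / M := by
            rw [hM, le_div_iff₀ (by positivity)]
            have c2 : d ^ 12 * w ^ 50 * (20 / d ^ 36 * 2047) * (d * w ^ 5)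
                = (40940 * w ^ 55) * d ^ 13 / d ^ 36 := by ring
            rw [c2, div_le_one (by positivity)]
            calc 40940 * w ^ 55 * d ^ 13 ≤ d * d ^ 13 := by gcongr
              _ = d ^ 14 := by ring
              _ ≤ d ^ 36 := pow_le_pow_right₀ hd1 (by norm_num)
    -- second term
    have b2 : |(q : ℝ) * (v j / (F k * P) * (t - u k) ^ 10)| ≤ 5 / M := by
      have c1 : 0 ≤ v j ∧ v j ≤ 3 / 2 := by
        unfold v
        split_ifs
        · norm_num
        · refine ⟨Real.sqrt_nonneg 2, ?_⟩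
          rw [Real.sqrt_le_left (by norm_num)]
          norm_num
      have c2 : F k = d ^ 12 / w ^ 12 := by
        unfold F
        rw [hd, hw, mul_comm 12, pow_mul]
      have c3 : |t - u k| ^ 10 ≤ 1 / w ^ 80 := by
        have c4 : ((1 : ℝ) / 256) ^ lev k = 1 / w ^ 8 := by
          rw [hw, ← pow_mul, mul_comm, pow_mul, div_pow, one_pow]
          norm_num
        calc |t - u k| ^ 10 ≤ (1 / w ^ 8) ^ 10 := by
              rw [← c4]
              exact pow_le_pow_left₀ (abs_nonneg _) htu 10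
          _ = 1 / w ^ 80 := by
              rw [div_pow, one_pow, ← pow_mul]
      rw [abs_mul, abs_of_nonneg hq0r, abs_mul, abs_pow, c2]
      have c5 : |v j / (d ^ 12 / w ^ 12 * P)| ≤ (3 / 2) / (d ^ 12 / w ^ 12 * P) := by
        rw [abs_of_nonneg (div_nonneg c1.1 (by positivity))]
        exact div_le_div_of_nonneg_right c1.2 (by positivity)
      calc (q : ℝ) * (|v j / (d ^ 12 / w ^ 12 * P)| * |t - u k| ^ 10)
          ≤ (d ^ 12 * w ^ 50) * ((3 / 2) / (d ^ 12 / w ^ 12 * P) * (1 / w ^ 80)) := by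
            apply mul_le_mul hqr _ (by positivity) (by positivity)
            exact mul_le_mul c5 c3 (by positivity) (by positivity)
        _ = (3 / 2) / (P * w ^ 18) := by
            field_simp
        _ ≤ 5 / M := by
            rw [hM, div_le_div_iff₀ (by positivity) (by positivity)]
            have c6 : w ^ 5 ≤ w ^ 18 := pow_le_pow_right₀ hw1 (by norm_num)
            calc (3 / 2 : ℝ) * (d * w ^ 5) ≤ (3 / 2) * ((3 * P) * w ^ 18) := by gcongr
              _ ≤ 5 * (P * w ^ 18) := by
                  have : 0 < P * w ^ 18 := by positivity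
                  linarith
    -- third term
    have b3 : |∑ l : Fin 10, (s k j l.succ / P) * ((q : ℝ) * gam t l - y l)| ≤ 20 / M := by
      calc |∑ l : Fin 10, (s k j l.succ / P) * ((q : ℝ) * gam t l - y l)|
          ≤ ∑ l : Fin 10, |(s k j l.succ / P) * ((q : ℝ) * gam t l - y l)| :=
            Finset.abs_sum_le_sum_abs _ _
        _ ≤ ∑ _l : Fin 10, 2 * (1 / M) := by
            apply Finset.sum_le_sum
            intro l _
            rw [abs_mul]
            apply mul_le_mul _ (hy' l).le (abs_nonneg _) (by norm_num)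
            rw [abs_div, abs_of_pos hP0, div_le_iff₀ hP0, hP]
            exact hG.bds k j l.succ
        _ = 20 / M := by
            rw [Finset.sum_const, Finset.card_univ, Fintype.card_fin]
            simp only [nsmul_eq_mul]
            push_cast
            ring
    have b4 : (1 : ℝ) / M + 5 / M + 20 / M < 50 / M := by
      rw [← add_div, ← add_div]
      exact div_lt_div_of_pos_right (by norm_num) hM0
    calc |(q : ℝ) * (∑ l : Fin 11, r l * t ^ l.1) + q * (v j / (F k * P) * (t - u k) ^ 10)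
        + ∑ l : Fin 10, (s k j l.succ / P) * ((q : ℝ) * gam t l - y l)|
        ≤ |(q : ℝ) * (∑ l : Fin 11, r l * t ^ l.1)| + |q * (v j / (F k * P) * (t - u k) ^ 10)|
        + |∑ l : Fin 10, (s k j l.succ / P) * ((q : ℝ) * gam t l - y l)| := abs_add_three _ _ _
      _ ≤ 1 / M + 5 / M + 20 / M := by linarith
      _ < 50 / M := b4

end Pool.Agent.W188.KT
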